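import Mathlib

/-!
# Index of p-adic hypersurfaces (project KK, MP_b723a0_ag): definitions

* `WF p κ Fl`: the Witt vectors over `Fl` with components in a finite subextension of `Fl / κ`;
* `Sys l d M`: systems of `R` forms of degree `d` over `M` in more than `R d l ^ v_l (d)` variables
  have a nontrivial zero.
-/

set_option autoImplicit false

namespace ZC.KK

universe u

/-- systems of `R` forms of degree `d` in more than `R * (d * l ^ v_l (d))` variables have a
nontrivial zero -/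
def Sys (l d : ℕ) (M : Type u) [Field M] : Prop :=
  ∀ (R m : ℕ) (f : Fin R → MvPolynomial (Fin m) M), (∀ a, (f a).IsHomogeneous d) →
    R * (d * l ^ padicValNat l d) < m →
    ∃ x : Fin m → M, x ≠ 0 ∧ ∀ a, MvPolynomial.eval x (f a) = 0

section

variable {p : ℕ} [Fact p.Prime] {κ Fl : Type u} [Field κ] [Field Fl] [Algebra κ Fl]

/-- Witt vectors with components in a subfield come from the subfield. -/
theorem exists_map (E : IntermediateField κ Fl) {x : WittVector p Fl} (hx : ∀ n, x.coeff n ∈ E) :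
    ∃ y : WittVector p E, WittVector.map (algebraMap E Fl) y = x := by
  refine ⟨WittVector.mk p fun n => ⟨x.coeff n, hx n⟩, ?_⟩
  ext n
  rw [WittVector.map_coeff, WittVector.coeff_mk]
  rfl

theorem coeff_mem (E : IntermediateField κ Fl) (y : WittVector p E) (n : ℕ) :
    (WittVector.map (algebraMap E Fl) y).coeff n ∈ E := by
  rw [WittVector.map_coeff]
  exact (y.coeff n).2

end

/-- the Witt vectors with components in a finite subextension -/
def WF (p : ℕ) [Fact p.Prime] (κ Fl : Type u) [Field κ] [Field Fl] [Algebra κ Fl] :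
    Subring (WittVector p Fl) where
  carrier := {x | ∃ E : IntermediateField κ Fl, FiniteDimensional κ E ∧ ∀ n, x.coeff n ∈ E}
  mul_mem' := by
    rintro x y ⟨E, hE, hx⟩ ⟨E', hE', hy⟩
    obtain ⟨x', rfl⟩ := exists_map (E ⊔ E') fun n => (le_sup_left : E ≤ E ⊔ E') (hx n)
    obtain ⟨y', rfl⟩ := exists_map (E ⊔ E') fun n => (le_sup_right : E' ≤ E ⊔ E') (hy n)
    refine ⟨E ⊔ E', inferInstance, fun n => ?_⟩
    rw [← map_mul]
    exact coeff_mem _ _ n
  one_mem' := ⟨⊥, inferInstance, fun n => by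
    have h := coeff_mem (p := p) (⊥ : IntermediateField κ Fl) 1 n
    rwa [map_one] at h⟩
  add_mem' := by
    rintro x y ⟨E, hE, hx⟩ ⟨E', hE', hy⟩
    obtain ⟨x', rfl⟩ := exists_map (E ⊔ E') fun n => (le_sup_left : E ≤ E ⊔ E') (hx n)
    obtain ⟨y', rfl⟩ := exists_map (E ⊔ E') fun n => (le_sup_right : E' ≤ E ⊔ E') (hy n)
    refine ⟨E ⊔ E', inferInstance, fun n => ?_⟩
    rw [← map_add]
    exact coeff_mem _ _ n
  zero_mem' := ⟨⊥, inferInstance, fun n => by
    have h := coeff_mem (p := p) (⊥ : IntermediateField κ Fl) 0 n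
    rwa [map_zero] at h⟩
  neg_mem' := by
    rintro x ⟨E, hE, hx⟩
    obtain ⟨x', rfl⟩ := exists_map E hx
    refine ⟨E, hE, fun n => ?_⟩
    rw [← map_neg]
    exact coeff_mem _ _ n

/-- The conclusion of Greenberg's theorem for `WF p κ Fl`. -/
def GreenbergW (p : ℕ) [Fact p.Prime] (κ Fl : Type u) [Field κ] [Field Fl] [Algebra κ Fl] : Prop :=
  ∀ {ι σ : Type} [Finite ι] [Finite σ] (f : ι → MvPolynomial σ (WF p κ Fl))
    (x : ℕ → σ → WF p κ Fl) (_ : ∀ i a, (p : WF p κ Fl) ^ i ∣ MvPolynomial.eval (x i) (f a))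
    (c : ℕ), ∃ i, c ≤ i ∧ ∃ y : σ → WF p κ Fl, (∀ a, MvPolynomial.eval y (f a) = 0) ∧
      ∀ s, (p : WF p κ Fl) ^ c ∣ y s - x i s

end ZC.KK
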