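import Pool.Agent.Helper63.KK.Homog
import Pool.Agent.Helper63.KK.Defs

/-!
# Systems of forms over the Witt vectors of a prime-to-`l` closed field (project KK, K2)
-/

set_option autoImplicit false

namespace ZC.KK

open WittVector MvPolynomial

universe u

variable {p : ℕ} [hp : Fact p.Prime]

section div

variable {κ Fl : Type u} [Field κ] [Field Fl] [Algebra κ Fl]

theorem mem_WF {x : WittVector p Fl} : x ∈ WF p κ Fl ↔
    ∃ E : IntermediateField κ Fl, FiniteDimensional κ E ∧ ∀ n, x.coeff n ∈ E := Iff.rfl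

/-- division by powers of `p` -/
theorem WF_div [Finite κ] [CharP Fl p] {x : WittVector p Fl} {k : ℕ}
    (h : x * (p : WittVector p Fl) ^ k ∈ WF p κ Fl) : x ∈ WF p κ Fl := by
  obtain ⟨E, hE, hx⟩ := h
  refine ⟨E, hE, fun n => ?_⟩
  have h1 : (x * (p : WittVector p Fl) ^ k).coeff (n + k) = x.coeff n ^ p ^ k :=
    mul_pow_charP_coeff_succ x
  have h2 := hx (n + k)
  rw [h1] at h2
  have hfin : Finite E := Module.finite_of_finite κ
  have hcE : CharP E p := (algebraMap E Fl).charP (algebraMap E Fl).injective p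
  have hexp : ExpChar E p := ExpChar.prime hp.out
  obtain ⟨r, hr⟩ := (iterateFrobeniusEquiv E p k).surjective ⟨_, h2⟩
  rw [iterateFrobeniusEquiv_def] at hr
  have h3 : (r : Fl) ^ p ^ k = x.coeff n ^ p ^ k := congrArg Subtype.val hr
  have hexp' : ExpChar Fl p := ExpChar.prime hp.out
  have h4 : (r : Fl) = x.coeff n := by
    have h5 := iterateFrobenius_inj Fl p k
    apply h5
    rw [iterateFrobenius_def, iterateFrobenius_def]
    exact h3
  rw [← h4]
  exact r.2

theorem WF_dvd [Finite κ] [CharP Fl p] {x : WF p κ Fl} {k : ℕ}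
    (h : (p : WittVector p Fl) ^ k ∣ (x : WittVector p Fl)) : (p : WF p κ Fl) ^ k ∣ x := by
  obtain ⟨q, hq⟩ := h
  have h1 : q ∈ WF p κ Fl := WF_div (k := k) (by rw [mul_comm, ← hq]; exact x.2)
  exact ⟨⟨q, h1⟩, Subtype.ext hq⟩

theorem fv_mem_WF [Algebra.IsAlgebraic κ Fl] {m M : ℕ} (x : Fin m × Fin M → Fl) (c : Fin m) :
    fv (p := p) x c ∈ WF p κ Fl := by
  refine ⟨IntermediateField.adjoin κ (Set.range x),
    IntermediateField.finiteDimensional_adjoin fun y _ => Algebra.IsIntegral.isIntegral y,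
    fun n => ?_⟩
  rw [fv, coeff_mk]
  split_ifs with h
  · exact IntermediateField.subset_adjoin _ _ ⟨_, rfl⟩
  · exact zero_mem _

end div

section cost

theorem padicValNat_mul_pow {l : ℕ} (hl : l.Prime) (hlp : l ≠ p) {d : ℕ} (hd : 0 < d) (j : ℕ) :
    padicValNat l (d * p ^ j) = padicValNat l d := by
  have : Fact l.Prime := ⟨hl⟩
  rw [padicValNat.mul hd.ne' (pow_pos hp.out.pos j).ne', padicValNat.pow,
    padicValNat_primes (p := l) (q := p) hlp, mul_zero, add_zero]

end cost

section approx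

variable {κ Fl : Type u} [Field κ] [Field Fl] [Algebra κ Fl]

/-- **Approximate primitive zeros.** -/
theorem exists_approx [Finite κ] [CharP Fl p] [Algebra.IsAlgebraic κ Fl] {l d : ℕ}
    (hl : l.Prime) (hlp : l ≠ p) (hd : 0 < d) (hW : WTL l 0 Fl) {R m : ℕ}
    (f : Fin R → MvPolynomial (Fin m) (WF p κ Fl)) (hf : ∀ a, (f a).IsHomogeneous d)
    (hR : R * (d * l ^ padicValNat l d) < m) (T : ℕ) :
    ∃ y : Fin m → WF p κ Fl, (∃ c, ¬ (p : WF p κ Fl) ∣ y c) ∧
      ∀ a, (p : WF p κ Fl) ^ T ∣ eval y (f a) := by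
  classical
  have hperf : PerfectField Fl := Algebra.IsAlgebraic.perfectField κ
  have hexp : ExpChar Fl p := ExpChar.prime hp.out
  have hPR : PerfectRing Fl p := PerfectField.toPerfectRing p
  set v := l ^ padicValNat l d with hv
  -- the number of levels
  obtain ⟨M, hM⟩ : ∃ M : ℕ, R * (d * M + T) * v < m * M := by
    refine ⟨R * T * v + 1, ?_⟩
    have h1 : R * (d * (R * T * v + 1) + T) * v = R * (d * v) * (R * T * v + 1) + R * T * v := by
      ring
    have h2 : (R * (d * v) + 1) * (R * T * v + 1) ≤ m * (R * T * v + 1) :=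
      Nat.mul_le_mul_right _ hR
    have h3 : (R * (d * v) + 1) * (R * T * v + 1) =
        R * (d * v) * (R * T * v + 1) + (R * T * v + 1) := by ring
    omega
  -- the components
  have hmap : ∀ a, (map (WF p κ Fl).subtype (f a)).IsHomogeneous d := fun a => (hf a).map _
  choose P hP1 hP2 using fun a => exists_components M (hmap a)
  obtain ⟨x, hx0, hx⟩ := hW.exists_zero (ι := Fin R × Fin (d * M + T)) (σ := Fin m × Fin M)
    (fun q => d * p ^ (q.2 : ℕ)) (fun s => p ^ (s.2 : ℕ)) (fun q => P q.1 q.2)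
    (fun q => hP1 q.1 q.2) (fun q => Nat.mul_pos hd (pow_pos hp.out.pos _))
    (fun s => pow_pos hp.out.pos _) (by
      have h1 : ∀ j : ℕ, wcost l 0 (d * p ^ j) = v := by
        intro j
        unfold wcost
        rw [pow_zero, one_mul, padicValNat_mul_pow hl hlp hd]
      have h2 : ∀ j : ℕ, wcost l 0 (p ^ j) = 1 := by
        intro j
        unfold wcost
        have h3 := padicValNat_mul_pow hl hlp (Nat.succ_pos 0) j
        rw [Nat.succ_eq_add_one, zero_add, one_mul, padicValNat_one_right] at h3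
        rw [pow_zero, one_mul, h3, pow_zero]
      simp only [h1, h2, Finset.sum_const, Finset.card_univ, Fintype.card_prod, Fintype.card_fin,
        smul_eq_mul, mul_one]
      exact hM)
  -- the first nonzero level
  have hex : ∃ i : ℕ, ∃ (h : i < M) (c : Fin m), x (c, ⟨i, h⟩) ≠ 0 := by
    obtain ⟨⟨c, i⟩, hci⟩ := Function.ne_iff.1 hx0
    exact ⟨i, i.2, c, hci⟩
  obtain ⟨hkM, c₀, hc₀⟩ := Nat.find_spec hex
  set k := Nat.find hex with hk
  have hmin : ∀ i < k, ∀ c, (fv (p := p) x c).coeff i = 0 := by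
    intro i hi c
    rw [fv, coeff_mk]
    split_ifs with h
    · by_contra hne
      exact Nat.find_min hex hi ⟨h, c, hne⟩
    · rfl
  have hdvd : ∀ c, (p : WittVector p Fl) ^ k ∣ fv (p := p) x c := by
    intro c
    rw [← Ideal.mem_span_singleton]
    exact (mem_span_p_pow_iff_le_coeff_eq_zero _ k).2 fun i hi => hmin i hi c
  choose y hy using hdvd
  have hyW : ∀ c, y c ∈ WF p κ Fl := fun c => WF_div (k := k) (by
    rw [mul_comm, ← hy c]
    exact fv_mem_WF x c)
  refine ⟨fun c => ⟨y c, hyW c⟩, ⟨c₀, ?_⟩, fun a => WF_dvd ?_⟩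
  · rintro ⟨q, hq⟩
    have h1 : y c₀ = (p : WittVector p Fl) * (q : WittVector p Fl) := congrArg Subtype.val hq
    have h2 : (y c₀).coeff 0 = 0 := by
      rw [h1, mul_comm]
      exact mul_charP_coeff_zero _
    have h3 : (y c₀ * (p : WittVector p Fl) ^ k).coeff (0 + k) = (y c₀).coeff 0 ^ p ^ k :=
      mul_pow_charP_coeff_succ _
    rw [zero_add, mul_comm (y c₀), ← hy c₀, h2, zero_pow (pow_pos hp.out.pos k).ne', fv,
      coeff_mk, dif_pos hkM] at h3
    exact hc₀ h3
  · -- the value
    have h1 : ((eval (fun c => (⟨y c, hyW c⟩ : WF p κ Fl)) (f a) : WF p κ Fl) :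
        WittVector p Fl) = eval y (map (WF p κ Fl).subtype (f a)) := by
      rw [eval_map]
      have h2 := eval₂_comp_left (WF p κ Fl).subtype (RingHom.id _)
        (fun c => (⟨y c, hyW c⟩ : WF p κ Fl)) (f a)
      rw [RingHom.comp_id] at h2
      exact h2
    rw [h1]
    have h2 : (p : WittVector p Fl) ^ (d * M + T) ∣
        eval (fv (p := p) x) (map (WF p κ Fl).subtype (f a)) := by
      rw [← Ideal.mem_span_singleton]
      refine (mem_span_p_pow_iff_le_coeff_eq_zero _ _).2 fun j hj => ?_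
      rw [← hP2 a j x]
      exact hx (a, ⟨j, hj⟩)
    have h3 : eval (fv (p := p) x) (map (WF p κ Fl).subtype (f a)) =
        (p : WittVector p Fl) ^ (k * d) * eval y (map (WF p κ Fl).subtype (f a)) := by
      have h4 : fv (p := p) x = fun c => ((p : WittVector p Fl) ^ k) ^ 1 * y c := by
        funext c
        rw [pow_one]
        exact hy c
      rw [h4]
      have h5 := eval_weighted_smul (w := fun _ : Fin m => 1) (hmap a) ((p : WittVector p Fl) ^ k) y
      rw [h5, ← pow_mul]
    rw [h3] at h2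
    have h6 : k * d ≤ d * M := by
      rw [mul_comm]
      exact Nat.mul_le_mul_left d hkM.le
    have h7 : d * M + T = k * d + (d * M + T - k * d) := by omega
    rw [h7, pow_add] at h2
    have h8 := (mul_dvd_mul_iff_left (pow_ne_zero (k * d) (WittVector.p_nonzero p Fl))).1 h2
    exact (pow_dvd_pow _ (by omega)).trans h8

/-- **Systems of forms over the fraction field.** -/
theorem sys_WF [Finite κ] [CharP Fl p] [Algebra.IsAlgebraic κ Fl] {l d : ℕ}
    (hl : l.Prime) (hlp : l ≠ p) (hd : 0 < d) (hW : WTL l 0 Fl) (hG : GreenbergW p κ Fl)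
    (M : Type u) [Field M] [Algebra (WF p κ Fl) M] [IsFractionRing (WF p κ Fl) M] :
    Sys l d M := by
  classical
  intro R m f hf hR
  -- denominators
  obtain ⟨b, hb⟩ := IsLocalization.exist_integer_multiples_of_finset
    (nonZeroDivisors (WF p κ Fl)) (Finset.univ.biUnion fun a : Fin R =>
      (f a).support.image fun q => (f a).coeff q)
  have hlift : ∀ a, ∃ g : MvPolynomial (Fin m) (WF p κ Fl),
      map (algebraMap (WF p κ Fl) M) g = C (algebraMap (WF p κ Fl) M b) * f a := by
    intro a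
    have h1 : C (algebraMap (WF p κ Fl) M b) * f a ∈
        Set.range (map (σ := Fin m) (algebraMap (WF p κ Fl) M)) := by
      rw [mem_range_map_iff_coeffs_subset]
      intro c hc
      obtain ⟨q, hq, rfl⟩ := mem_coeffs_iff.1 (Finset.mem_coe.1 hc)
      rw [coeff_C_mul]
      have hq' : (f a).coeff q ≠ 0 := by
        intro h0
        rw [mem_support_iff, coeff_C_mul, h0, mul_zero] at hq
        exact hq rfl
      obtain ⟨r, hr⟩ := hb ((f a).coeff q) (Finset.mem_biUnion.2 ⟨a, Finset.mem_univ _,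
        Finset.mem_image.2 ⟨q, mem_support_iff.2 hq', rfl⟩⟩)
      refine ⟨r, ?_⟩
      rw [hr, Algebra.smul_def]
    exact h1
  choose g hg using hlift
  have hinj : Function.Injective (algebraMap (WF p κ Fl) M) := IsFractionRing.injective _ _
  have hb0 : algebraMap (WF p κ Fl) M b ≠ 0 := by
    rw [ne_eq, map_eq_zero_iff _ hinj]
    exact nonZeroDivisors.ne_zero b.2
  have hgh : ∀ a, (g a).IsHomogeneous d := by
    intro a q hq
    refine hf a (d := q) fun h0 => hq ?_
    have h1 := congrArg (MvPolynomial.coeff q) (hg a)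
    rw [coeff_map, coeff_C_mul, h0, mul_zero, map_eq_zero_iff _ hinj] at h1
    exact h1
  choose x hx1 hx2 using exists_approx hl hlp hd hW g hgh hR
  obtain ⟨i, hi, y, hy, hyx⟩ := hG g x (fun i a => hx2 i a) 1
  obtain ⟨c, hc⟩ := hx1 i
  refine ⟨fun s => algebraMap (WF p κ Fl) M (y s), fun h0 => hc ?_, fun a => ?_⟩
  · have h1 : y c = 0 := by
      have h2 := congrFun h0 c
      rwa [Pi.zero_apply, map_eq_zero_iff _ hinj] at h2
    have h3 := hyx c
    rw [h1, zero_sub, pow_one, dvd_neg] at h3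
    exact h3
  · have h1 : eval (fun s => algebraMap (WF p κ Fl) M (y s)) (map (algebraMap (WF p κ Fl) M) (g a)) =
        0 := by
      rw [eval_map]
      have h2 := eval₂_comp_left (algebraMap (WF p κ Fl) M) (RingHom.id _) y (g a)
      rw [RingHom.comp_id] at h2
      have h3 : eval₂ (RingHom.id _) y (g a) = 0 := hy a
      rw [h3, map_zero] at h2
      exact h2.symm
    rw [hg a, map_mul, eval_C] at h1
    exact (mul_eq_zero.1 h1).resolve_left hb0

end approx

end ZC.KK
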