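import Mathlib

/-!
# Zeros of a form whose degree is prime to `l` (project KK, K5)
-/

set_option autoImplicit false

namespace ZC.KK

open MvPolynomial

universe u

section

variable {K : Type u} [Field K] {n d : ℕ}

theorem eq_single {m : Fin (n + 1) →₀ ℕ} (hm : ∑ i, m i = d) (h0 : m 0 = d) :
    m = Finsupp.single 0 d := by
  classical
  ext i
  rw [Finsupp.single_apply]
  split_ifs with h
  · rw [← h, h0]
  · rw [Fin.sum_univ_succ, h0] at hm
    have h1 : ∑ i : Fin n, m i.succ = 0 := by omega
    obtain ⟨j, rfl⟩ := Fin.exists_succ_eq.2 (Ne.symm h)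
    exact (Finset.sum_eq_zero_iff.1 h1) j (Finset.mem_univ j)

theorem sum_eq_of_coeff {f : MvPolynomial (Fin (n + 1)) K} (hf : f.IsHomogeneous d)
    {m : Fin (n + 1) →₀ ℕ} (hm : f.coeff m ≠ 0) : ∑ i, m i = d := by
  have h := hf hm
  rw [← h, Finsupp.weight_apply, Finsupp.sum_fintype _ _ (fun i => by simp)]
  simp

/-- the value at `(1, 0, …, 0)` -/
theorem eval_first {f : MvPolynomial (Fin (n + 1)) K} (hf : f.IsHomogeneous d) :
    eval (Pi.single 0 1) f = f.coeff (Finsupp.single 0 d) := by
  classical
  rw [eval_eq', Finset.sum_eq_single (Finsupp.single 0 d)]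
  · rw [Finset.prod_eq_one, mul_one]
    intro i _
    by_cases h : i = 0
    · subst h
      simp
    · rw [Finsupp.single_eq_of_ne h, pow_zero]
  · intro m hm hne
    have hs := sum_eq_of_coeff hf (mem_support_iff.1 hm)
    have h1 : ∃ i, i ≠ 0 ∧ m i ≠ 0 := by
      by_contra hcon
      push Not at hcon
      apply hne
      refine eq_single hs ?_
      rw [← hs, Finset.sum_eq_single 0]
      · intro b _ hb
        exact hcon b hb
      · intro h
        exact absurd (Finset.mem_univ _) h
    obtain ⟨i, hi, hmi⟩ := h1
    rw [Finset.prod_eq_zero (Finset.mem_univ i), mul_zero]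
    rw [Pi.single_eq_of_ne hi, zero_pow hmi]
  · intro h
    rw [notMem_support_iff.1 h, zero_mul]

/-- The degrees of the extensions with a zero: a binary form of degree `d` is a product of
irreducible factors. -/
theorem dvd_of_forall_dvd (hn : 1 ≤ n) {f : MvPolynomial (Fin (n + 1)) K}
    (hf : f.IsHomogeneous d) {g : ℕ}
    (hg : ∀ (L : Type u) [Field L] [Algebra K L] [FiniteDimensional K L],
      (∃ x : Fin (n + 1) → L, x ≠ 0 ∧ aeval x f = 0) → g ∣ Module.finrank K L) : g ∣ d := by
  classical
  by_cases h0 : f.coeff (Finsupp.single 0 d) = 0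
  · have h1 := hg K ⟨Pi.single 0 1, ?_, ?_⟩
    · rw [Module.finrank_self] at h1
      exact (Nat.dvd_one.1 h1) ▸ one_dvd d
    · intro h
      have h1 := congrFun h 0
      simp at h1
    · have h1 := eval_first hf
      rw [h0] at h1
      exact h1
  · -- the restriction to a line
    let i₁ : Fin (n + 1) := ⟨1, by omega⟩
    have hi₁ : i₁ ≠ 0 := by
      intro h
      have h1 := congrArg Fin.val h
      simp [i₁] at h1
    let v : Fin (n + 1) → Polynomial K := fun i => if i = 0 then Polynomial.X else
      if i = i₁ then 1 else 0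
    set P : Polynomial K := aeval v f with hP
    have hsum : P = ∑ m ∈ f.support, Polynomial.C (f.coeff m) * ∏ i, v i ^ m i := by
      rw [hP, aeval_def, eval₂_eq']
      rfl
    have hterm : ∀ m ∈ f.support, ∃ c : K, Polynomial.C (f.coeff m) * ∏ i, v i ^ m i =
        Polynomial.C c * Polynomial.X ^ (m 0) := by
      intro m _
      refine ⟨f.coeff m * ∏ i : Fin n, (if i.succ = i₁ then (1 : K) else 0) ^ m i.succ, ?_⟩
      have h1 : ∀ i : Fin n, v i.succ = Polynomial.C (if i.succ = i₁ then (1 : K) else 0) := by
        intro i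
        simp only [v]
        rw [if_neg (Fin.succ_ne_zero i)]
        split_ifs
        · rw [map_one]
        · rw [map_zero]
      have h2 : v 0 = Polynomial.X := if_pos rfl
      rw [Fin.prod_univ_succ, h2, map_mul, map_prod]
      simp only [h1, map_pow]
      ring
    have hle : P.natDegree ≤ d := by
      rw [hsum]
      refine Polynomial.natDegree_sum_le_of_forall_le _ _ fun m hm => ?_
      obtain ⟨c, hc⟩ := hterm m hm
      rw [hc]
      refine (Polynomial.natDegree_C_mul_X_pow_le _ _).trans ?_
      have hs := sum_eq_of_coeff hf (mem_support_iff.1 hm)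
      rw [← hs]
      exact Finset.single_le_sum (f := fun i => m i) (fun _ _ => Nat.zero_le _)
        (Finset.mem_univ 0)
    have hcoeff : P.coeff d = f.coeff (Finsupp.single 0 d) := by
      rw [hsum, Polynomial.finsetSum_coeff, Finset.sum_eq_single (Finsupp.single 0 d)]
      · rw [Fin.prod_univ_succ]
        have h2 : v 0 = Polynomial.X := if_pos rfl
        have h3 : ∀ i : Fin n, v i.succ ^ (Finsupp.single (0 : Fin (n + 1)) d) i.succ = 1 := by
          intro i
          rw [Finsupp.single_eq_of_ne (Fin.succ_ne_zero i), pow_zero]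
        rw [h2, Finset.prod_congr rfl fun i _ => h3 i, Finset.prod_const_one, mul_one,
          Finsupp.single_eq_same, Polynomial.coeff_C_mul_X_pow, if_pos rfl]
      · intro m hm hne
        obtain ⟨c, hc⟩ := hterm m hm
        rw [hc, Polynomial.coeff_C_mul_X_pow, if_neg]
        intro h
        exact hne (eq_single (sum_eq_of_coeff hf (mem_support_iff.1 hm)) h.symm)
      · intro h
        rw [notMem_support_iff.1 h]
        simp
    have hdeg : P.natDegree = d := by
      refine le_antisymm hle (Polynomial.le_natDegree_of_ne_zero ?_)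
      rw [hcoeff]
      exact h0
    have hP0 : P ≠ 0 := by
      intro h
      rw [h, Polynomial.coeff_zero] at hcoeff
      exact h0 hcoeff.symm
    rw [← hdeg]
    have h1 : Associated (UniqueFactorizationMonoid.normalizedFactors P).prod P :=
      UniqueFactorizationMonoid.prod_normalizedFactors hP0
    have h2 : P.natDegree = (UniqueFactorizationMonoid.normalizedFactors P).prod.natDegree :=
      (Polynomial.natDegree_eq_of_degree_eq (Polynomial.degree_eq_degree_of_associated h1)).symm
    rw [h2, Polynomial.natDegree_multiset_prod _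
      (UniqueFactorizationMonoid.zero_notMem_normalizedFactors P)]
    refine Multiset.dvd_sum fun k hk => ?_
    obtain ⟨q, hq, rfl⟩ := Multiset.mem_map.1 hk
    have hqi := UniqueFactorizationMonoid.irreducible_of_normalized_factor q hq
    have hqP := UniqueFactorizationMonoid.dvd_of_mem_normalizedFactors hq
    have hqF : Fact (Irreducible q) := ⟨hqi⟩
    have hfin : FiniteDimensional K (AdjoinRoot q) := (AdjoinRoot.powerBasis hqi.ne_zero).finite
    have h3 := hg (AdjoinRoot q) ⟨fun i => if i = 0 then AdjoinRoot.root q else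
      if i = i₁ then 1 else 0, ?_, ?_⟩
    · rw [(AdjoinRoot.powerBasis hqi.ne_zero).finrank, AdjoinRoot.powerBasis_dim] at h3
      exact h3
    · intro h
      have h1 := congrFun h i₁
      simp only [if_neg hi₁, if_true, Pi.zero_apply] at h1
      exact one_ne_zero h1
    · have h1 := comp_aeval_apply v (Polynomial.aeval (AdjoinRoot.root q)) f
      have h2 : (fun i => Polynomial.aeval (AdjoinRoot.root q) (v i)) =
          fun i => if i = 0 then AdjoinRoot.root q else if i = i₁ then 1 else 0 := by
        funext i
        simp only [v]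
        split_ifs
        · rw [Polynomial.aeval_X]
        · rw [map_one]
        · rw [map_zero]
      rw [h2, ← hP] at h1
      rw [← h1]
      obtain ⟨s, hs⟩ := hqP
      rw [hs, map_mul, AdjoinRoot.aeval_eq, AdjoinRoot.mk_self, zero_mul]

/-- **Forms of degree prime to `l`.** -/
theorem exists_zero_of_not_dvd {l : ℕ} (hn : 1 ≤ n) (hld : ¬ l ∣ d)
    {f : MvPolynomial (Fin (n + 1)) K} (hf : f.IsHomogeneous d) :
    ∃ (L : Type u) (_ : Field L) (_ : Algebra K L), FiniteDimensional K L ∧
      ¬ l ∣ Module.finrank K L ∧ ∃ x : Fin (n + 1) → L, x ≠ 0 ∧ aeval x f = 0 := by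
  by_contra hcon
  push Not at hcon
  refine hld (dvd_of_forall_dvd hn hf fun L _ _ _ hx => ?_)
  by_contra hL
  obtain ⟨x, hx0, hx⟩ := hx
  exact hcon L inferInstance inferInstance inferInstance hL x hx0 hx

end

end ZC.KK
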