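import Pool.Agent.Helper63.KK.Defs
import Pool.Agent.Helper63.KK.Line
import Pool.Agent.Helper99.BD.Restrict
import Pool.Agent.Helper99.BD.Comp

/-!
# Finite extensions (project KK, K4a)
-/

set_option autoImplicit false

namespace ZC.KK

open MvPolynomial

universe u

/-- A form over a finite extension, by restriction of scalars. -/
theorem Sys.zero_of_finite {l d : ℕ} {M N : Type u} [Field M] [Field N] [Algebra M N]
    [FiniteDimensional M N] (h : Sys l d M) {n : ℕ} (hn : d * l ^ padicValNat l d ≤ n)
    (f : MvPolynomial (Fin (n + 1)) N) (hf : f.IsHomogeneous d) :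
    ∃ x : Fin (n + 1) → N, x ≠ 0 ∧ eval x f = 0 := by
  classical
  set r := Module.finrank M N with hr
  have hr0 : 0 < r := Module.finrank_pos
  let b := Module.finBasis M N
  let e : Fin ((n + 1) * r) ≃ Fin (n + 1) × Fin r := finProdFinEquiv.symm
  let π : Fin ((n + 1) * r) → Fin (n + 1) := fun v => (e v).1
  let β : Fin ((n + 1) * r) → N := fun v => b (e v).2
  choose g hg1 hg2 using fun a : Fin r => exists_restrict (F := M) π β (fun _ => 1) hf (b.coord a)
  obtain ⟨ζ, hζ0, hζ⟩ := h r ((n + 1) * r) g hg1 (by
    calc r * (d * l ^ padicValNat l d) ≤ r * n := Nat.mul_le_mul_left r hn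
      _ < (n + 1) * r := by
        rw [add_mul, one_mul, mul_comm n r]
        omega)
  refine ⟨coordElt π β ζ, fun h0 => ?_, ?_⟩
  · obtain ⟨v, hv⟩ := Function.ne_iff.1 hζ0
    refine coordElt_ne_zero (π := π) (β := β) hv ?_ (congrFun h0 (π v))
    have hinj : Function.Injective fun u : {u : Fin ((n + 1) * r) // π u = π v} => (e u).2 := by
      intro u u' huu
      apply Subtype.ext
      apply e.injective
      exact Prod.ext (u.2.trans u'.2.symm) huu
    exact b.linearIndependent.comp _ hinj
  · apply b.repr.injective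
    rw [map_zero]
    ext a
    have h1 := hg2 a ζ
    rw [hζ a] at h1
    exact h1.symm

end ZC.KK
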