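import Pool.Agent.Helper63.KK.Approx
import Pool.Agent.Helper63.KK.Finite
import Pool.Agent.Helper99.BD.ChainUp
import Pool.Agent.Helper99.BD.Zero
import Pool.Agent.Helper15.BDX.Seg

/-!
# Index of p-adic hypersurfaces (project KK): assembly
-/

set_option autoImplicit false

namespace ZC.KK

open MvPolynomial

/-- The fraction field of the Witt vectors is a union of finite Galois extensions of degree prime
to `l` of `ℚ_[p]`. -/
def Unram (p : ℕ) [Fact p.Prime] : Prop :=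
  ∀ (l : ℕ), l.Prime → ∀ (Fl : Type) [Field Fl] [Algebra (ZMod p) Fl], PrimeTo l (ZMod p) Fl →
    ∃ (M : Type) (_ : Field M) (_ : Algebra ℚ_[p] M) (_ : Algebra (WF p (ZMod p) Fl) M),
      IsFractionRing (WF p (ZMod p) Fl) M ∧ PrimeTo l ℚ_[p] M

theorem exists_zero_of_ne (p : ℕ) [hp : Fact p.Prime]
    (hG : ∀ (Fl : Type) [Field Fl] [Algebra (ZMod p) Fl] [Algebra.IsAlgebraic (ZMod p) Fl],
      GreenbergW p (ZMod p) Fl) (hU : Unram p)
    (K : Type) [Field K] [Algebra ℚ_[p] K] [FiniteDimensional ℚ_[p] K] {n d l : ℕ}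
    {f : MvPolynomial (Fin (n + 1)) K} (hf : f.IsHomogeneous d) (hl : l.Prime) (hlp : l ≠ p)
    (hd : 0 < d) (hn : d * l ^ padicValNat l d ≤ n) :
    ∃ (L : Type) (_ : Field L) (_ : Algebra K L), FiniteDimensional K L ∧
      ¬ l ∣ Module.finrank K L ∧ ∃ x : Fin (n + 1) → L, x ≠ 0 ∧ aeval x f = 0 := by
  classical
  have hfin : Finite (ZMod p) := inferInstance
  obtain ⟨Fl, _, _, h1, h2, h3⟩ := exists_wtl_zero (ZMod p) hl
  have hchar : CharP Fl p := charP_of_injective_algebraMap (algebraMap (ZMod p) Fl).injective p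
  obtain ⟨M, _, _, _, h4, h5⟩ := hU l hl Fl h1
  have hS : Sys l d M := sys_WF hl hlp hd h3 (hG Fl) M
  obtain ⟨N, _, _, _, h6, h7⟩ := h5.exists_compositum (L := K)
  obtain ⟨x, hx0, hx⟩ := hS.zero_of_finite hn (map (algebraMap K N) f) (hf.map _)
  obtain ⟨E, _, _, _, _, h8, h9, x', hx', hg⟩ := h7.descend x
  refine ⟨E, inferInstance, inferInstance, h8, fun h => ?_, x', fun h0 => hx0 ?_, ?_⟩
  · have h10 : l ∣ 1 := by
      rw [← h9.gcd_eq_one]
      exact Nat.dvd_gcd h dvd_rfl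
    exact hl.one_lt.ne' (Nat.dvd_one.1 h10)
  · funext t
    rw [← hx' t, h0, Pi.zero_apply, map_zero, Pi.zero_apply]
  · have h10 := hg f hx
    rw [eval_map] at h10
    exact h10

/-- **Index of p-adic hypersurfaces.** -/
theorem exists_zero (p : ℕ) [hp : Fact p.Prime]
    (hG : ∀ (Fl : Type) [Field Fl] [Algebra (ZMod p) Fl] [Algebra.IsAlgebraic (ZMod p) Fl],
      GreenbergW p (ZMod p) Fl) (hU : Unram p)
    (K : Type) [Field K] [Algebra ℚ_[p] K] [FiniteDimensional ℚ_[p] K] (n d : ℕ)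
    (f : MvPolynomial (Fin (n + 1)) K) (hd : 1 ≤ d) (hf : f.IsHomogeneous d) (l : ℕ)
    (hl : l.Prime)
    (h : (l ≠ p ∧ d * l ^ padicValNat l d ≤ n) ∨ (¬ l ∣ d ∧ 1 ≤ n)) :
    ∃ (L : Type) (_ : Field L) (_ : Algebra K L), FiniteDimensional K L ∧
      ¬ l ∣ Module.finrank K L ∧ ∃ x : Fin (n + 1) → L, x ≠ 0 ∧ aeval x f = 0 := by
  rcases h with ⟨h1, h2⟩ | ⟨h1, h2⟩
  · exact exists_zero_of_ne p hG hU K hf hl h1 hd h2
  · exact exists_zero_of_not_dvd h2 h1 hf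

end ZC.KK
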