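import Mathlib
import Pool.Agent.Helper99.BD.Defs

/-!
# The Witt components of a form are weighted homogeneous (project KK, MP_b723a0_ag)

For a form `f` of degree `d` over `W(F)`, the `j`-th Witt component of `f(x)` is a weighted
homogeneous polynomial of degree `d p ^ j` in the Witt components `x_(c, i)` of the coordinates,
which have the weights `p ^ i`.
-/

set_option autoImplicit false

namespace ZC.KK

open WittVector MvPolynomial

variable {p : ℕ} [hp : Fact p.Prime]

section teich

variable {R : Type*} [CommRing R]

theorem frobenius_teichmuller [CharP R p] (a : R) :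
    WittVector.frobenius (teichmuller p a) = teichmuller p (a ^ p) := by
  ext n
  rw [coeff_frobenius_charP]
  rcases Nat.eq_zero_or_pos n with h | h
  · subst h
    rw [teichmuller_coeff_zero, teichmuller_coeff_zero]
  · rw [teichmuller_coeff_pos _ _ _ h, teichmuller_coeff_pos _ _ _ h, zero_pow hp.out.ne_zero]

theorem eq_teichmuller_add (y : WittVector p R) :
    y = teichmuller p (y.coeff 0) + verschiebung (WittVector.mk p fun n => y.coeff (n + 1)) := by
  ext n
  rw [coeff_add_of_disjoint]
  · cases n with
    | zero => rw [teichmuller_coeff_zero, verschiebung_coeff_zero, add_zero]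
    | succ n =>
      rw [teichmuller_coeff_pos _ _ _ (Nat.succ_pos n), verschiebung_coeff_succ, coeff_mk,
        zero_add]
  · intro n
    cases n with
    | zero => right; exact verschiebung_coeff_zero _
    | succ n => left; exact teichmuller_coeff_pos _ _ _ (Nat.succ_pos n)

theorem teichmuller_mul_coeff [CharP R p] (n : ℕ) :
    ∀ (a : R) (y : WittVector p R), (teichmuller p a * y).coeff n = a ^ p ^ n * y.coeff n := by
  induction n with
  | zero =>
    intro a y
    rw [mul_coeff_zero, teichmuller_coeff_zero, pow_zero, pow_one]
  | succ n ih =>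
    intro a y
    have h1 : teichmuller p a * y = teichmuller p (a * y.coeff 0) +
        verschiebung (teichmuller p (a ^ p) * WittVector.mk p fun n => y.coeff (n + 1)) := by
      conv_lhs => rw [eq_teichmuller_add y]
      rw [mul_add, ← map_mul, ← frobenius_teichmuller, mul_comm (WittVector.frobenius _),
        verschiebung_mul_frobenius, mul_comm (teichmuller p a)]
    rw [h1, coeff_add_of_disjoint]
    · rw [teichmuller_coeff_pos _ _ _ (Nat.succ_pos n), zero_add, verschiebung_coeff_succ, ih,
        coeff_mk, ← pow_mul, ← pow_succ']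
    · intro n
      cases n with
      | zero => right; exact verschiebung_coeff_zero _
      | succ n => left; exact teichmuller_coeff_pos _ _ _ (Nat.succ_pos n)

end teich

section kind

variable {F : Type*} [Field F] {S : Type*} (w : S → ℕ)

/-- the scaling `X s ↦ t ^ w s X s` -/
noncomputable def sc : MvPolynomial S F →+* Polynomial (MvPolynomial S F) :=
  eval₂Hom (Polynomial.C.comp C) fun s => Polynomial.X ^ w s * Polynomial.C (X s)

theorem sc_monomial (m : S →₀ ℕ) (c : F) :
    sc w (monomial m c) = Polynomial.X ^ Finsupp.weight w m * Polynomial.C (monomial m c) := by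
  have h1 : ∀ g : S →₀ ℕ, (g.prod fun s k => (Polynomial.X ^ w s * Polynomial.C (X s) :
      Polynomial (MvPolynomial S F)) ^ k) = Polynomial.X ^ Finsupp.weight w g *
        Polynomial.C (monomial g 1) := by
    intro g
    induction g using Finsupp.induction_linear with
    | zero => simp
    | add a b ha hb =>
      rw [Finsupp.prod_add_index' (fun _ => pow_zero _) (fun _ _ _ => pow_add _ _ _), ha, hb,
        map_add, pow_add]
      have h2 : (monomial (a + b) (1 : F)) = monomial a 1 * monomial b 1 := by
        rw [monomial_mul, one_mul]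
      rw [h2, map_mul]
      ring
    | single s k =>
      have h2 : ((Finsupp.single s k).prod fun s k => (Polynomial.X ^ w s * Polynomial.C (X s) :
        Polynomial (MvPolynomial S F)) ^ k) = (Polynomial.X ^ w s * Polynomial.C (X s) :
        Polynomial (MvPolynomial S F)) ^ k := Finsupp.prod_single_index (pow_zero _)
      rw [h2, Finsupp.weight_single, mul_pow, ← map_pow,
        X_pow_eq_monomial, ← pow_mul, smul_eq_mul, mul_comm (w s)]
  rw [sc, coe_eval₂Hom, eval₂_monomial, h1, RingHom.comp_apply]
  have h2 : monomial m c = C c * monomial m 1 := by rw [C_mul_monomial, mul_one]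
  rw [h2, map_mul]
  ring

theorem isWeightedHomogeneous_of_sc {f : MvPolynomial S F} {D : ℕ}
    (h : sc w f = Polynomial.X ^ D * Polynomial.C f) : IsWeightedHomogeneous w f D := by
  classical
  intro m hm
  by_contra hne
  have h1 : sc w f = ∑ k ∈ f.support, Polynomial.X ^ Finsupp.weight w k *
      Polynomial.C (monomial k (f.coeff k)) := by
    conv_lhs => rw [f.as_sum]
    rw [map_sum]
    exact Finset.sum_congr rfl fun k _ => sc_monomial w k _
  have h2 : ((sc w f).coeff (Finsupp.weight w m)).coeff m =
      ((Polynomial.X ^ D * Polynomial.C f : Polynomial (MvPolynomial S F)).coeff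
        (Finsupp.weight w m)).coeff m := by rw [h]
  rw [h1, Polynomial.finsetSum_coeff, coeff_sum, Polynomial.coeff_X_pow_mul'] at h2
  have h3 : (∑ k ∈ f.support, coeff m ((Polynomial.X ^ Finsupp.weight w k *
      Polynomial.C (monomial k (f.coeff k)) : Polynomial (MvPolynomial S F)).coeff
        (Finsupp.weight w m))) = f.coeff m := by
    rw [Finset.sum_eq_single m]
    · rw [Polynomial.coeff_X_pow_mul', if_pos le_rfl, Nat.sub_self, Polynomial.coeff_C_zero,
        coeff_monomial, if_pos rfl]
    · intro k _ hk
      rw [Polynomial.coeff_X_pow_mul']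
      split_ifs
      · rw [Polynomial.coeff_C]
        split_ifs
        · rw [coeff_monomial, if_neg hk]
        · exact coeff_zero _
      · exact coeff_zero _
    · intro h4
      exact absurd (mem_support_iff.2 hm) h4
  rw [h3] at h2
  apply hm
  rw [h2]
  split_ifs with h4
  · rw [Polynomial.coeff_C, if_neg (by omega), coeff_zero]
  · exact coeff_zero _

/-- the Witt vectors whose components are weighted homogeneous of degrees `D p ^ j` -/
def WKind (D : ℕ) (y : WittVector p (MvPolynomial S F)) : Prop :=
  WittVector.map (sc w) y = teichmuller p (Polynomial.X ^ D) * WittVector.map Polynomial.C y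

theorem WKind.one : WKind w 0 (1 : WittVector p (MvPolynomial S F)) := by
  unfold WKind
  rw [map_one, map_one, pow_zero, map_one, one_mul]

theorem WKind.zero (D : ℕ) : WKind w D (0 : WittVector p (MvPolynomial S F)) := by
  unfold WKind
  rw [map_zero, map_zero, mul_zero]

theorem WKind.add {D : ℕ} {x y : WittVector p (MvPolynomial S F)} (hx : WKind w D x)
    (hy : WKind w D y) : WKind w D (x + y) := by
  unfold WKind at *
  rw [map_add, map_add, hx, hy, mul_add]

theorem WKind.mul {D D' : ℕ} {x y : WittVector p (MvPolynomial S F)} (hx : WKind w D x)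
    (hy : WKind w D' y) : WKind w (D + D') (x * y) := by
  unfold WKind at *
  rw [map_mul, map_mul, hx, hy, pow_add, map_mul]
  ring

theorem WKind.const (a : WittVector p F) : WKind w 0 (WittVector.map (C : F →+* MvPolynomial S F) a) := by
  unfold WKind
  rw [pow_zero, map_one, one_mul]
  apply WittVector.ext
  intro n
  rw [map_coeff, map_coeff, map_coeff, map_coeff, sc, coe_eval₂Hom, eval₂_C, RingHom.comp_apply]

/-- the components -/
theorem WKind.coeff [CharP F p] {D : ℕ} {y : WittVector p (MvPolynomial S F)} (hy : WKind w D y) (j : ℕ) :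
    IsWeightedHomogeneous w (y.coeff j) (D * p ^ j) := by
  apply isWeightedHomogeneous_of_sc
  have h1 : (WittVector.map (sc w) y).coeff j =
      (teichmuller p (Polynomial.X ^ D) * WittVector.map Polynomial.C y).coeff j := by
    rw [show WittVector.map (sc w) y = _ from hy]
  rw [teichmuller_mul_coeff, map_coeff, map_coeff, ← pow_mul] at h1
  exact h1

/-- the generic Witt vector of length `M` -/
noncomputable def gv {m M : ℕ} (c : Fin m) : WittVector p (MvPolynomial (Fin m × Fin M) F) :=
  WittVector.mk p fun i => if h : i < M then X (c, ⟨i, h⟩) else 0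

theorem gv_kind [CharP F p] {m M : ℕ} (c : Fin m) :
    WKind (fun s : Fin m × Fin M => p ^ (s.2 : ℕ)) 1 (gv (p := p) (F := F) (M := M) c) := by
  unfold WKind
  ext i
  rw [teichmuller_mul_coeff, map_coeff, map_coeff, pow_one, gv, coeff_mk]
  split_ifs with h
  · rw [sc, coe_eval₂Hom, eval₂_X]
  · rw [map_zero, map_zero, mul_zero]

/-- the Witt vector with finitely many given components -/
noncomputable def fv {m M : ℕ} (x : Fin m × Fin M → F) (c : Fin m) : WittVector p F :=
  WittVector.mk p fun i => if h : i < M then x (c, ⟨i, h⟩) else 0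

/-- the value of a form at the generic Witt vectors -/
noncomputable def genVal {m : ℕ} (M : ℕ) (f : MvPolynomial (Fin m) (WittVector p F)) :
    WittVector p (MvPolynomial (Fin m × Fin M) F) :=
  eval₂ (WittVector.map (C : F →+* MvPolynomial (Fin m × Fin M) F)) (gv (p := p) (F := F)) f

theorem genVal_kind [CharP F p] {m d : ℕ} (M : ℕ) {f : MvPolynomial (Fin m) (WittVector p F)}
    (hf : f.IsHomogeneous d) :
    WKind (fun s : Fin m × Fin M => p ^ (s.2 : ℕ)) d (genVal M f) := by
  unfold genVal
  exact eval₂_mem (WittVector.map (C : F →+* MvPolynomial (Fin m × Fin M) F))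
    (WKind (p := p) (fun s : Fin m × Fin M => p ^ (s.2 : ℕ)))
    (WKind.one _) (fun _ _ _ _ => WKind.mul _) (WKind.zero _) (fun _ _ _ => WKind.add _)
    (fun a => WKind.const _ a) (fun _ => 1) (gv (p := p) (F := F)) (fun c => gv_kind c) hf

theorem map_eval_C {T : Type*} (x : T → F) :
    (WittVector.map (eval x)).comp (WittVector.map (C : F →+* MvPolynomial T F)) =
      RingHom.id (WittVector p F) := by
  apply RingHom.ext
  intro a
  apply WittVector.ext
  intro n
  rw [RingHom.comp_apply, map_coeff, map_coeff, eval_C, RingHom.id_apply]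

theorem map_eval_gv {m M : ℕ} (x : Fin m × Fin M → F) (c : Fin m) :
    WittVector.map (eval x) (gv (p := p) (F := F) (M := M) c) = fv x c := by
  apply WittVector.ext
  intro n
  rw [map_coeff, gv, fv, coeff_mk, coeff_mk]
  split_ifs
  · rw [eval_X]
  · rw [map_zero]

theorem map_genVal {m M : ℕ} (f : MvPolynomial (Fin m) (WittVector p F))
    (x : Fin m × Fin M → F) : WittVector.map (eval x) (genVal M f) = eval (fv x) f := by
  unfold genVal
  rw [hom_eval₂, map_eval_C]
  have h4 : (fun c => WittVector.map (eval x) (gv (p := p) (F := F) (M := M) c)) = fv x :=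
    funext fun c => map_eval_gv x c
  rw [h4]
  exact eval₂_id f

/-- **The Witt components of a form.** -/
theorem exists_components [CharP F p] {m d : ℕ} (M : ℕ) {f : MvPolynomial (Fin m) (WittVector p F)}
    (hf : f.IsHomogeneous d) : ∃ P : ℕ → MvPolynomial (Fin m × Fin M) F,
      (∀ j, IsWeightedHomogeneous (fun s : Fin m × Fin M => p ^ (s.2 : ℕ)) (P j) (d * p ^ j)) ∧
      ∀ (j : ℕ) (x : Fin m × Fin M → F), eval x (P j) = (eval (fv x) f).coeff j := by
  refine ⟨fun j => (genVal M f).coeff j, fun j => (genVal_kind M hf).coeff _ j, fun j x => ?_⟩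
  rw [← map_genVal, map_coeff]

end kind

end ZC.KK
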