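import Pool.Agent.Helper63.KK.Assembly
import Pool.Agent.Helper71.KK.Unram
import Pool.Agent.Helper25.KK.Witt

/-!
# Index of p-adic hypersurfaces (project KK): the theorem
-/

set_option autoImplicit false

namespace ZC.KK

open MvPolynomial

section

variable (p : ℕ) [hp : Fact p.Prime] (K : Type) [Field K] [Algebra ℚ_[p] K]
  [FiniteDimensional ℚ_[p] K] (n d : ℕ) (f : MvPolynomial (Fin (n + 1)) K)

/-- **Zeros over extensions of degree prime to `l`.** -/
theorem main_zero (hd : 1 ≤ d) (hf : f.IsHomogeneous d) (l : ℕ) (hl : l.Prime)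
    (h : (l ≠ p ∧ d * l ^ padicValNat l d ≤ n) ∨ (¬ l ∣ d ∧ 1 ≤ n)) :
    ∃ (L : Type) (_ : Field L) (_ : Algebra K L), FiniteDimensional K L ∧
      ¬ l ∣ Module.finrank K L ∧ ∃ x : Fin (n + 1) → L, x ≠ 0 ∧ aeval x f = 0 := by
  have hfin : Finite (ZMod p) := inferInstance
  exact exists_zero p (fun Fl _ _ _ => greenberg_W p (ZMod p) Fl)
    (fun l hl Fl _ _ h => exists_unramified p Fl h) K n d f hd hf l hl h

/-- **The index divides the `p`-part of the degree.** -/
theorem main_index (hd : 1 ≤ d) (hn : ∀ l, l.Prime → l ≠ p → d * l ^ padicValNat l d ≤ n)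
    (hn1 : 1 ≤ n) (hf : f.IsHomogeneous d) (g : ℕ)
    (hg : ∀ (L : Type) [Field L] [Algebra K L] [FiniteDimensional K L],
      (∃ x : Fin (n + 1) → L, x ≠ 0 ∧ aeval x f = 0) → g ∣ Module.finrank K L) :
    g ∣ p ^ padicValNat p d := by
  have h1 : g ∣ d := dvd_of_forall_dvd hn1 hf hg
  have hg0 : g ≠ 0 := by
    rintro rfl
    rw [zero_dvd_iff] at h1
    omega
  have h2 : ∀ l, l.Prime → l ∣ g → l = p := by
    intro l hl hlg
    by_contra hne
    obtain ⟨L, _, _, h3, h4, x, hx0, hx⟩ := main_zero p K n d f hd hf l hl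
      (Or.inl ⟨hne, hn l hl hne⟩)
    exact h4 (hlg.trans (hg L ⟨x, hx0, hx⟩))
  have h3 : g = p ^ padicValNat p g := by
    rw [Nat.eq_prime_pow_of_unique_prime_dvd hg0 (fun {l} hl hlg => h2 l hl hlg)]
    rw [padicValNat.prime_pow]
  rw [h3]
  refine pow_dvd_pow p ?_
  rw [← padicValNat_dvd_iff_le (by omega)]
  rw [← h3]
  exact h1

end

end ZC.KK
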